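import Pool.Agent.W982.CP.All

/-!
# CONVEX-PARTITION is APX-hard

CONVEX-PARTITION asks for a partition of a finite set of points of the plane (with rational
coordinates) into as few sets in convex position as possible.  Every problem in APX reduces to it
by a PTAS-reduction.

Proof.  By the PCP theorem and the construction of disjoint unions of copies (with geometrically
decreasing weights) of the formulas that express the thresholds of a problem in APX, it is enough to
map a 3CNF formula `φ` with boundedly many occurrences of every variable to an instance with a
number `N0 = O(|φ|)` such that (a) every assignment with `u` unsatisfied clauses gives a
partition into at most `N0 + 18 u` parts, and (b) a partition into `N0 + e` parts gives an
assignment with at most `O(e)` unsatisfied clauses.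

First `φ` is mapped to a digraph: every occurrence of a variable is a block of eight directed
triangles with alternating orientations, joined by antiparallel arcs; the blocks of a variable form
a closed tube; every clause is a directed hexagon through three pairs of antiparallel arcs.
Then every arc `u → v` is mapped to four blobs of points, one near each corner of a large square: the
position of the top right and bottom left blobs is given by the column of `v` and the row of `u`,
the position of the others by the column of `u` and the row of `v`.  Every blob has three long
convex chains (vertical, diagonal, horizontal).  The coordinates are chosen such that a set in
convex position which contains more than `23/24` of the possible number of points must use chains
of four blobs at the corners of a rectangle, and four blobs that form a rectangle come from a closed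
walk of length four of the digraph, and conversely the points of such a rectangle are in convex
position.  So the number of parts counts the packings of closed walks of length four, which are
the squares between consecutive triangles of the tubes and the windows of the hexagons.
-/

set_option autoImplicit false

namespace Pool.Agent.Results.MP_32aa60_lc.ApxHard

open Pool.Agent.H243R3.TP Pool.Agent.W982.CP

/-- **CONVEX-PARTITION is APX-hard**: every problem in APX reduces to it by a PTAS-reduction. -/
theorem result : ∀ P : OptProblem, InAPX P → PTASReduces P convexPartition := all

end Pool.Agent.Results.MP_32aa60_lc.ApxHard
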